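import Pool.Graph.R_seed8.H298R3.Exp.Stab

set_option autoImplicit false

open Filter Topology Metric Set
open scoped ContDiff Manifold

namespace Pool.Agent.Results.MP_03e07f_an.ContDiffOneActions

open Pool.Agent.H298R3.Exp

universe u v w z

variable {E : Type u} [NormedAddCommGroup E] [NormedSpace ℝ E]
  {G : Type v} [TopologicalSpace G] [ChartedSpace E G] [Group G] [LieGroup 𝓘(ℝ, E) ∞ G]
  {L : OpenPartialHomeomorph G E} {ρ : ℝ}
  {X : Type w} [NormedAddCommGroup X] [NormedSpace ℝ X]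
  {M : Type z} [TopologicalSpace M] [ChartedSpace X M]
  [IsManifold 𝓘(ℝ, X) 1 M] [MulAction G M]

/-- the action in charts -/
noncomputable def ac (L : OpenPartialHomeomorph G E) (m : M) (p : E × X) : X :=
  chartAt X m (L.symm p.1 • (chartAt X m).symm p.2)

theorem contDiffAt_ac (hL : LogChart L ρ) (m : M)
    (hact : ContMDiffAt (𝓘(ℝ, E).prod 𝓘(ℝ, X)) 𝓘(ℝ, X) 1
      (fun p : G × M => p.1 • p.2) (1, m)) :
    ContDiffAt ℝ 1 (ac (X := X) L m) (0, chartAt X m m) := by
  have h0 : L.target ∈ 𝓝 (0 : E) :=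
    L.open_target.mem_nhds (hL.mem_target (by rw [norm_zero]; exact hL.pos))
  have h1 : ContMDiffAt 𝓘(ℝ, E × X) 𝓘(ℝ, E) 1 (fun p : E × X => L.symm p.1)
      ((0 : E), chartAt X m m) := by
    have a : ContMDiffAt 𝓘(ℝ, E) 𝓘(ℝ, E) 1 L.symm (0 : E) :=
      ((contMDiffOn_symm_of_mem_maximalAtlas hL.mem_atlas).contMDiffAt h0).of_le
        (by exact_mod_cast le_top)
    exact ContMDiffAt.comp (g := L.symm) ((0 : E), chartAt X m m) a
      contDiff_fst.contMDiff.contMDiffAt
  have h2 : ContMDiffAt 𝓘(ℝ, E × X) 𝓘(ℝ, X) 1 (fun p : E × X => (chartAt X m).symm p.2)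
      ((0 : E), chartAt X m m) := by
    have a : ContMDiffAt 𝓘(ℝ, X) 𝓘(ℝ, X) 1 (chartAt X m).symm (chartAt X m m) :=
      (contMDiffOn_chart_symm (I := 𝓘(ℝ, X)) (n := 1) (x := m)).contMDiffAt
        ((chartAt X m).open_target.mem_nhds ((chartAt X m).map_source (mem_chart_source X m)))
    exact ContMDiffAt.comp (g := (chartAt X m).symm) ((0 : E), chartAt X m m) a
      contDiff_snd.contMDiff.contMDiffAt
  have e1 : L.symm (0 : E) = 1 := hL.symm_zero
  have e2 : (chartAt X m).symm (chartAt X m m) = m :=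
    (chartAt X m).left_inv (mem_chart_source X m)
  have h3 : ContMDiffAt 𝓘(ℝ, E × X) 𝓘(ℝ, X) 1
      (fun p : E × X => L.symm p.1 • (chartAt X m).symm p.2) ((0 : E), chartAt X m m) := by
    have a : ContMDiffAt (𝓘(ℝ, E).prod 𝓘(ℝ, X)) 𝓘(ℝ, X) 1 (fun p : G × M => p.1 • p.2)
        (L.symm (0 : E), (chartAt X m).symm (chartAt X m m)) := by rw [e1, e2]; exact hact
    exact ContMDiffAt.comp (g := fun p : G × M => p.1 • p.2) ((0 : E), chartAt X m m) a
      (h1.prodMk h2)
  have h4 : ContMDiffAt 𝓘(ℝ, X) 𝓘(ℝ, X) 1 (chartAt X m)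
      (L.symm (0 : E) • (chartAt X m).symm (chartAt X m m)) := by
    rw [e1, e2, one_smul]
    exact (contMDiffOn_chart (I := 𝓘(ℝ, X)) (n := 1) (x := m)).contMDiffAt
      ((chartAt X m).open_source.mem_nhds (mem_chart_source X m))
  rw [← contMDiffAt_iff_contDiffAt]
  exact ContMDiffAt.comp (g := chartAt X m) ((0 : E), chartAt X m m) h4 h3

/-- Local form: near `0`, `exp x` fixes `m` iff `x` is in the kernel of the derivative of the
orbit map. -/
theorem exists_ker1 (hL : LogChart L ρ) (m : M)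
    (hact : ContMDiffAt (𝓘(ℝ, E).prod 𝓘(ℝ, X)) 𝓘(ℝ, X) 1
      (fun p : G × M => p.1 • p.2) (1, m)) :
    ∃ D : E →L[ℝ] X, HasMFDerivAt 𝓘(ℝ, E) 𝓘(ℝ, X) (fun g : G => g • m) 1 D ∧
      ∃ δ : ℝ, 0 < δ ∧ δ ≤ ρ ∧ ∀ x : E, ‖x‖ < δ → (L.symm x • m = m ↔ D x = 0) := by
  have := hL.topGroup
  set ψ := chartAt X m with hψ
  set y0 := ψ m with hy0
  have hmS : m ∈ ψ.source := mem_chart_source X m
  have hψy0 : ψ.symm y0 = m := ψ.left_inv hmS
  set f := ac (X := X) L m with hf
  have hfs : ContDiffAt ℝ 1 f ((0 : E), y0) := contDiffAt_ac (X := X) hL m hact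
  have hff : HasFDerivAt f (fderiv ℝ f (0, y0)) ((0 : E), y0) :=
    (hfs.differentiableAt (by simp)).hasFDerivAt
  have hf0 : ∀ x : E, f (x, y0) = ψ (L.symm x • m) := fun x => by
    show ψ (L.symm x • ψ.symm y0) = _
    rw [hψy0]
  have hfy : (fun y : X => f ((0 : E), y)) =ᶠ[𝓝 y0] id := by
    filter_upwards [ψ.open_target.mem_nhds (ψ.map_source hmS)] with y hy
    show ψ (L.symm (0 : E) • ψ.symm y) = y
    rw [hL.symm_zero, one_smul, ψ.right_inv hy]
  have hR : (fderiv ℝ f (0, y0)).comp (ContinuousLinearMap.inr ℝ E X) =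
      ContinuousLinearMap.id ℝ X := by
    have h1 : HasFDerivAt (fun y : X => ((0 : E), y)) (ContinuousLinearMap.inr ℝ E X) y0 :=
      hasFDerivAt_prodMk_right (0 : E) y0
    have h2 : HasFDerivAt (fun y : X => f ((0 : E), y))
        ((fderiv ℝ f (0, y0)).comp (ContinuousLinearMap.inr ℝ E X)) y0 :=
      HasFDerivAt.comp y0 (f := fun y : X => ((0 : E), y)) hff h1
    exact h2.unique ((hasFDerivAt_id y0).congr_of_eventuallyEq hfy)
  refine ⟨(fderiv ℝ f (0, y0)).comp (ContinuousLinearMap.inl ℝ E X), ?_, ?_⟩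
  · -- the derivative of the orbit map
    have hc : ContinuousAt (fun g : G => g • m) 1 := by
      have h1 : ContinuousAt (fun g : G => (g, m)) 1 := by fun_prop
      exact ContinuousAt.comp (f := fun g : G => (g, m)) (g := fun p : G × M => p.1 • p.2)
        hact.continuousAt h1
    refine ⟨hc, ?_⟩
    have h1 : HasFDerivAt (fun v : E => (L ((chartAt E (1 : G)).symm v), y0))
        ((ContinuousLinearMap.id ℝ E).prod 0) (chartAt E (1 : G) 1) :=
      hL.deriv.prodMk (hasFDerivAt_const y0 _)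
    have e1 : L ((chartAt E (1 : G)).symm (chartAt E (1 : G) 1)) = 0 := by
      rw [(chartAt E (1 : G)).left_inv (mem_chart_source E (1 : G)), hL.map_one]
    have h2 : HasFDerivAt f (fderiv ℝ f (0, y0))
        (L ((chartAt E (1 : G)).symm (chartAt E (1 : G) 1)), y0) := by rw [e1]; exact hff
    have h3 := HasFDerivAt.comp (chartAt E (1 : G) 1)
      (f := fun v : E => (L ((chartAt E (1 : G)).symm v), y0)) h2 h1
    have e2 : (fderiv ℝ f (0, y0)).comp ((ContinuousLinearMap.id ℝ E).prod 0) =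
        (fderiv ℝ f (0, y0)).comp (ContinuousLinearMap.inl ℝ E X) := by
      ext x; rfl
    rw [e2] at h3
    have hsrc : ∀ᶠ v in 𝓝 (chartAt E (1 : G) 1), (chartAt E (1 : G)).symm v ∈ L.source := by
      have h4 := (chartAt E (1 : G)).symm.continuousAt
        ((chartAt E (1 : G)).map_source (mem_chart_source E (1 : G)))
      have h5 : L.source ∈ 𝓝 ((chartAt E (1 : G)).symm (chartAt E (1 : G) 1)) := by
        rw [(chartAt E (1 : G)).left_inv (mem_chart_source E (1 : G))]
        exact L.open_source.mem_nhds hL.one_mem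
      exact h4 h5
    have h6 : (fun v : E => chartAt X ((1 : G) • m) ((chartAt E (1 : G)).symm v • m)) =ᶠ[
        𝓝 (chartAt E (1 : G) 1)] (f ∘ fun v : E => (L ((chartAt E (1 : G)).symm v), y0)) := by
      filter_upwards [hsrc] with v hv
      show _ = f (L ((chartAt E (1 : G)).symm v), y0)
      rw [hf0, L.left_inv hv, one_smul]
    have h7 := h3.congr_of_eventuallyEq h6
    have h8 : HasFDerivWithinAt _ _ univ _ := h7.hasFDerivWithinAt
    simp only [writtenInExtChartAt, modelWithCornersSelf_coe, range_id]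
    exact h8
  · obtain ⟨δ1, hδ1, hδ1ρ, hadd⟩ := hL.exists_add
    -- near `0` the action is differentiable in charts, with derivative close to that at `0`
    have hev : ∀ᶠ x in 𝓝 (0 : E), DifferentiableAt ℝ f (x, y0) ∧
        ‖fderiv ℝ f (x, y0) - fderiv ℝ f (0, y0)‖ < 1 / 2 ∧ L.symm x • m ∈ ψ.source := by
      have h1 : Tendsto (fun x : E => (x, y0)) (𝓝 0) (𝓝 ((0 : E), y0)) := by
        have : ContinuousAt (fun x : E => (x, y0)) 0 := by fun_prop
        exact this.tendsto
      have h2 : ∀ᶠ p in 𝓝 ((0 : E), y0), DifferentiableAt ℝ f p :=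
        (hfs.eventually (by simp)).mono fun p hp => hp.differentiableAt (by simp)
      have h3 : ∀ᶠ p in 𝓝 ((0 : E), y0), ‖fderiv ℝ f p - fderiv ℝ f (0, y0)‖ < 1 / 2 := by
        have h4 : ContinuousAt (fderiv ℝ f) ((0 : E), y0) := by
          have := hfs.fderiv_right (m := 0) (by simp)
          exact this.continuousAt
        have h6 := h4.eventually (Metric.ball_mem_nhds _ (by norm_num : (0 : ℝ) < 1 / 2))
        filter_upwards [h6] with p hp
        rwa [dist_eq_norm] at hp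
      have h7 : ∀ᶠ x in 𝓝 (0 : E), L.symm x • m ∈ ψ.source := by
        have h8 : Tendsto (fun x : E => (L.symm x, m)) (𝓝 0) (𝓝 ((1 : G), m)) := by
          rw [nhds_prod_eq]
          exact hL.continuousAt_symm.prodMk tendsto_const_nhds
        have h9 : ψ.source ∈ 𝓝 ((1 : G) • m) := by
          rw [one_smul]; exact ψ.open_source.mem_nhds hmS
        exact (hact.continuousAt.tendsto.comp h8) h9
      exact (h1.eventually h2).and ((h1.eventually h3).and h7)
    obtain ⟨δ2, hδ2, hb⟩ := Metric.eventually_nhds_iff_ball.1 hev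
    refine ⟨min δ1 δ2, lt_min hδ1 hδ2, ?_, fun x hx => ?_⟩
    · have := hL.pos
      exact (min_le_left _ _).trans (hδ1ρ.trans (by linarith))
    have hx1 : ‖x‖ < δ1 := hx.trans_le (min_le_left _ _)
    have hx2 : ‖x‖ < δ2 := hx.trans_le (min_le_right _ _)
    have htx : ∀ t : ℝ, |t| ≤ 1 → t • x ∈ ball (0 : E) δ2 := fun t ht => by
      rw [mem_ball_zero_iff, norm_smul, Real.norm_eq_abs]
      exact lt_of_le_of_lt (mul_le_of_le_one_left (norm_nonneg _) ht) hx2
    set D := (fderiv ℝ f (0, y0)).comp (ContinuousLinearMap.inl ℝ E X) with hD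
    set y : ℝ → X := fun t => ψ (L.symm (t • x) • m) with hy
    have hyf : ∀ t, y t = f (t • x, y0) := fun t => (hf0 _).symm
    have hψy : ∀ t : ℝ, |t| ≤ 1 → ψ.symm (y t) = L.symm (t • x) • m := fun t ht =>
      ψ.left_inv (hb _ (htx t ht)).2.2
    -- the flow property
    have hflow : ∀ t s : ℝ, |t| ≤ 1 → |s| ≤ 1 → y (t + s) = f (t • x, y s) := by
      intro t s ht hs
      show _ = ψ (L.symm (t • x) • ψ.symm (y s))
      rw [hψy s hs, ← mul_smul, hadd x hx1 t s ht hs]
    have hy00 : y 0 = y0 := by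
      show ψ (L.symm ((0 : ℝ) • x) • m) = y0
      rw [zero_smul, hL.symm_zero, one_smul]
    have hd0 : HasDerivAt y (D x) 0 := by
      have h1 : HasDerivAt (fun s : ℝ => (s • x, y0)) (x, (0 : X)) 0 := by
        have h3 : HasDerivAt (fun s : ℝ => s • x) x 0 := by
          simpa using (hasDerivAt_id (0 : ℝ)).smul_const x
        exact h3.prodMk (hasDerivAt_const _ _)
      have h2 : HasFDerivAt f (fderiv ℝ f (0, y0)) ((0 : ℝ) • x, y0) := by
        rw [zero_smul]; exact hff
      have h4 : HasDerivAt (fun s : ℝ => f (s • x, y0)) (D x) 0 :=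
        HasFDerivAt.comp_hasDerivAt (0 : ℝ) (f := fun s : ℝ => (s • x, y0)) h2 h1
      exact h4.congr_of_eventuallyEq (Eventually.of_forall hyf)
    have hder : ∀ t ∈ Icc (0 : ℝ) 1,
        HasDerivAt y (fderiv ℝ f (t • x, y0) ((0 : E), D x)) t := by
      intro t ht
      have ht' : |t| ≤ 1 := abs_le.2 ⟨by linarith [ht.1], ht.2⟩
      have h1 : HasFDerivAt f (fderiv ℝ f (t • x, y0)) (t • x, y 0) := by
        rw [hy00]; exact (hb _ (htx t ht')).1.hasFDerivAt
      have h2 : HasDerivAt (fun s : ℝ => (t • x, y s)) ((0 : E), D x) 0 :=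
        (hasDerivAt_const _ _).prodMk hd0
      have h3 : HasDerivAt (fun s : ℝ => f (t • x, y s))
          (fderiv ℝ f (t • x, y0) ((0 : E), D x)) 0 :=
        HasFDerivAt.comp_hasDerivAt (0 : ℝ) (f := fun s : ℝ => (t • x, y s)) h1 h2
      have h4 : HasDerivAt (fun s : ℝ => y (t + s))
          (fderiv ℝ f (t • x, y0) ((0 : E), D x)) 0 := by
        refine h3.congr_of_eventuallyEq ?_
        filter_upwards [Icc_mem_nhds (by norm_num : (-1 : ℝ) < 0) (by norm_num : (0 : ℝ) < 1)]
          with s hs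
        exact hflow t s ht' (abs_le.2 hs)
      have h5 : HasDerivAt (fun s : ℝ => y (t + s))
          (fderiv ℝ f (t • x, y0) ((0 : E), D x)) (t - t) := by rw [sub_self]; exact h4
      refine (h5.comp_sub_const t t).congr_of_eventuallyEq (Eventually.of_forall fun s => ?_)
      show y s = y (t + (s - t))
      congr 1; ring
    have hbd : ∀ t ∈ Icc (0 : ℝ) 1,
        ‖fderiv ℝ f (t • x, y0) ((0 : E), D x) - D x‖ ≤ 1 / 2 * ‖D x‖ := by
      intro t ht
      have ht' : |t| ≤ 1 := abs_le.2 ⟨by linarith [ht.1], ht.2⟩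
      have h1 : fderiv ℝ f (0, y0) ((0 : E), D x) = D x := by
        have := congrArg (fun A : X →L[ℝ] X => A (D x)) hR
        simpa using this
      have h2 : fderiv ℝ f (t • x, y0) ((0 : E), D x) - D x =
          (fderiv ℝ f (t • x, y0) - fderiv ℝ f (0, y0)) ((0 : E), D x) := by
        rw [sub_apply, h1]
      rw [h2]
      refine (ContinuousLinearMap.le_opNorm _ _).trans ?_
      have h3 : ‖((0 : E), D x)‖ = ‖D x‖ := by simp [Prod.norm_def]
      rw [h3]
      exact mul_le_mul_of_nonneg_right (hb _ (htx t ht')).2.1.le (norm_nonneg _)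
    have hmv : ‖(y 1 - (1 : ℝ) • D x) - (y 0 - (0 : ℝ) • D x)‖ ≤ 1 / 2 * ‖D x‖ * ‖(1 : ℝ) - 0‖ := by
      refine (convex_Icc (0 : ℝ) 1).norm_image_sub_le_of_norm_hasDerivWithin_le
        (f := fun t => y t - t • D x) (f' := fun t => fderiv ℝ f (t • x, y0) ((0 : E), D x) - D x)
        (fun t ht => ?_) hbd (by simp) (by simp)
      have h1 : HasDerivAt (fun t : ℝ => t • D x) (D x) t := by
        simpa using (hasDerivAt_id t).smul_const (D x)
      exact ((hder t ht).sub h1).hasDerivWithinAt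
    have hy1 : y 1 = ψ (L.symm x • m) := by
      show ψ (L.symm ((1 : ℝ) • x) • m) = _
      rw [one_smul]
    constructor
    · intro hfix
      rw [hy1, hfix, hy00, one_smul, zero_smul, sub_zero, sub_zero, norm_one, mul_one] at hmv
      have h1 : ‖y0 - D x - y0‖ = ‖D x‖ := by
        rw [show y0 - D x - y0 = -(D x) by abel, norm_neg]
      rw [hy0] at h1
      rw [h1] at hmv
      have h2 : ‖D x‖ ≤ 0 := by linarith
      exact norm_le_zero_iff.1 h2
    · intro h0
      rw [h0, norm_zero, mul_zero, zero_mul, smul_zero, smul_zero, sub_zero, sub_zero] at hmv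
      have h1 : y 1 = y 0 := sub_eq_zero.1 (norm_le_zero_iff.1 hmv)
      have h2 := hψy 1 (by simp)
      have h3 := hψy 0 (by simp)
      rw [one_smul] at h2
      rw [zero_smul, hL.symm_zero, one_smul] at h3
      rw [← h2, h1, h3]

/-- Stabilizers of Banach–Lie group actions that are `C^1` near one point. -/
theorem result [CompleteSpace E] (m : M)
    (hact : ContMDiffAt (𝓘(ℝ, E).prod 𝓘(ℝ, X)) 𝓘(ℝ, X) 1
      (fun p : G × M => p.1 • p.2) (1, m)) :
    MDifferentiableAt 𝓘(ℝ, E) 𝓘(ℝ, X) (fun g : G => g • m) 1 ∧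
      ∀ h ∈ MulAction.stabilizer G m, ∃ e ∈ IsManifold.maximalAtlas 𝓘(ℝ, E) ∞ G,
        h ∈ e.source ∧ e h = 0 ∧
        e '' (e.source ∩ (MulAction.stabilizer G m : Set G)) =
          e.target ∩ {v : E | mfderiv 𝓘(ℝ, E) 𝓘(ℝ, X) (fun g : G => g • m) 1 v = 0} := by
  obtain ⟨L, ρ, hL⟩ := exists_logChart E G
  obtain ⟨D, hDm, δ, hδ, hδρ, hD⟩ := exists_ker1 (X := X) hL m hact
  have := hL.topGroup
  refine ⟨hDm.mdifferentiableAt, ?_⟩
  rw [hDm.mfderiv]
  intro h hh
  -- the chart near `1`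
  set L1 : OpenPartialHomeomorph G E :=
    (L.symm.restrOpen (Metric.ball 0 δ) Metric.isOpen_ball).symm with hL1
  have hL1t : L1.target = Metric.ball 0 δ := by
    show L.symm.source ∩ Metric.ball 0 δ = Metric.ball 0 δ
    refine Set.inter_eq_right.2 fun v hv => ?_
    rw [mem_ball_zero_iff] at hv
    exact hL.mem_target (hv.trans_le hδρ)
  have hL1src : L1.source = L.source ∩ L ⁻¹' (Metric.ball 0 δ) := rfl
  set e : OpenPartialHomeomorph G E :=
    (Homeomorph.mulLeft h⁻¹).toOpenPartialHomeomorph.trans L1 with he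
  have hef : ∀ g, e g = L (h⁻¹ * g) := fun g => rfl
  have hes : ∀ v, e.symm v = h * L.symm v := by
    intro v
    show (Homeomorph.mulLeft h⁻¹).symm (L.symm v) = _
    rw [Homeomorph.mulLeft_symm, inv_inv]
    rfl
  have hesrc : ∀ g, g ∈ e.source ↔ h⁻¹ * g ∈ L1.source := by
    intro g
    rw [he, OpenPartialHomeomorph.trans_source]
    simp
  have hetgt : e.target = Metric.ball 0 δ := by
    rw [he, OpenPartialHomeomorph.trans_target, hL1t]
    simp
  refine ⟨e, ?_, ?_, ?_, ?_⟩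
  · refine e.mem_maximalAtlas_of_contMDiffOn ?_ ?_
    · have h1 : ContMDiffOn 𝓘(ℝ, E) 𝓘(ℝ, E) ∞ (fun g => L (h⁻¹ * g)) e.source :=
        (contMDiffOn_of_mem_maximalAtlas hL.mem_atlas).comp
          (contMDiff_mul_left (a := h⁻¹)).contMDiffOn (fun g hg => ((hesrc g).1 hg).1)
      exact h1.congr fun g _ => hef g
    · have h1 : ContMDiffOn 𝓘(ℝ, E) 𝓘(ℝ, E) ∞ (fun v => h * L.symm v) e.target := by
        refine (contMDiff_mul_left (a := h)).comp_contMDiffOn
          ((contMDiffOn_symm_of_mem_maximalAtlas hL.mem_atlas).mono ?_)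
        rw [hetgt]
        intro v hv
        rw [mem_ball_zero_iff] at hv
        exact hL.mem_target (hv.trans_le hδρ)
      exact h1.congr fun v _ => hes v
  · rw [hesrc, inv_mul_cancel, hL1src]
    refine ⟨hL.one_mem, ?_⟩
    show L 1 ∈ Metric.ball 0 δ
    rw [hL.map_one]; exact Metric.mem_ball_self hδ
  · rw [hef, inv_mul_cancel, hL.map_one]
  · have hh' : h • m = m := hh
    have hhi : h⁻¹ • m = m := by rw [inv_smul_eq_iff]; exact hh'.symm
    ext v
    constructor
    · rintro ⟨g, ⟨hg, hgs⟩, rfl⟩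
      have hgs' : g • m = m := hgs
      refine ⟨e.map_source hg, ?_⟩
      have h1 := (hesrc g).1 hg
      have h2 : ‖L (h⁻¹ * g)‖ < δ := mem_ball_zero_iff.1 h1.2
      have h3 : L.symm (L (h⁻¹ * g)) = h⁻¹ * g := L.left_inv h1.1
      rw [hef]
      show D (L (h⁻¹ * g)) = 0
      rw [← hD _ h2, h3, mul_smul, hgs', hhi]
    · rintro ⟨hv, hvV⟩
      have hvV' : D v = 0 := hvV
      have hvb : ‖v‖ < δ := by rw [hetgt, mem_ball_zero_iff] at hv; exact hv
      refine ⟨e.symm v, ⟨e.map_target hv, ?_⟩, e.right_inv hv⟩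
      show e.symm v • m = m
      rw [hes, mul_smul, (hD v hvb).2 hvV', hh']

end Pool.Agent.Results.MP_03e07f_an.ContDiffOneActions
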